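import Pool.Agent.Y208.LQ.Stm
import Pool.Agent.H67.OL.DOM
import Pool.Agent.H67.OL.PBW2
import Pool.Agent.H67.OL.SORT

/-!
# The Poincaré–Birkhoff–Witt basis of the enveloping algebra (task LQ-PBWB)
-/

set_option autoImplicit false

namespace Pool.Agent.Y351.LQ

open H67OL H67OL.DOMaux

theorem t_PBWB : Y208.LQ.S_PBWB := by
  intro K _ L _ _ I _ b
  classical
  obtain ⟨ρ, hlie, hρ⟩ := t_PBW2 K L I b
  -- the representation of the enveloping algebra
  obtain ⟨Φ, hΦ'⟩ : ∃ Φ : UniversalEnvelopingAlgebra K L →ₐ[K]
      Module.End K (MvPolynomial I K), ∀ x, Φ (UniversalEnvelopingAlgebra.ι K x) = ρ x := by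
    let _ : LieRing (Module.End K (MvPolynomial I K)) := LieRing.ofAssociativeRing
    let ρ' : L →ₗ⁅K⁆ Module.End K (MvPolynomial I K) :=
      { ρ with
        map_lie' := by
          intro x y
          rw [LieRing.of_associative_ring_bracket]
          exact hlie x y }
    exact ⟨UniversalEnvelopingAlgebra.lift K ρ', fun x =>
      UniversalEnvelopingAlgebra.lift_ι_apply K ρ' x⟩
  set g : I → UniversalEnvelopingAlgebra K L := fun i => UniversalEnvelopingAlgebra.ι K (b i)
    with hg
  have hΦ : ∀ i, Φ (g i) = ρ (b i) := fun i => hΦ' (b i)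
  have hne : ∀ {σ p : MvPolynomial I K}, σ ≠ 0 → p ≠ 0 → Φ (Psi (K := K) g σ) p ≠ 0 :=
    fun hσ hp => act_ne b ρ g Φ hΦ hρ hσ hp
  -- the span of the products of the basis elements
  have hspan : ∀ x : L, UniversalEnvelopingAlgebra.ι K x ∈ Submodule.span K (Set.range g) := by
    intro x
    rw [← b.linearCombination_repr x, Finsupp.linearCombination_apply, Finsupp.sum, map_sum]
    refine Submodule.sum_mem _ fun i _ => ?_
    rw [map_smul]
    exact Submodule.smul_mem _ _ (Submodule.subset_span ⟨i, rfl⟩)
  have hcomm : ∀ β γ, g β * g γ - g γ * g β ∈ Submodule.span K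
      {z | ∃ δ, (fun _ : I => 1) δ ≤ (fun _ : I => 1) β + (fun _ : I => 1) γ ∧ z = g δ} := by
    intro β γ
    have e : g β * g γ - g γ * g β = UniversalEnvelopingAlgebra.ι K ⁅b β, b γ⁆ := by
      let _ : LieRing (UniversalEnvelopingAlgebra K L) := LieRing.ofAssociativeRing
      rw [LieHom.map_lie, LieRing.of_associative_ring_bracket]
    rw [e]
    refine Submodule.span_mono ?_ (hspan _)
    rintro _ ⟨i, rfl⟩
    exact ⟨i, by simp, rfl⟩
  have hrange : ∀ l : List I, (l.map g).prod ∈ LinearMap.range (Psi (K := K) g) := by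
    intro l
    have h3 := t_SORT K (UniversalEnvelopingAlgebra K L) I g (fun _ => 1) hcomm l
    refine Submodule.span_le.2 ?_ h3
    rintro _ ⟨m, hm, _, rfl⟩
    refine ⟨MvPolynomial.monomial (Multiset.toFinsupp (m : Multiset I)) 1, ?_⟩
    rw [Psi_monomial, one_smul, lst_of_sorted m hm]
  have hsurj : Function.Surjective (Psi (K := K) g) := by
    intro u
    have h4 : u ∈ Algebra.adjoin K (Set.range g) := by
      have := adjoin_top b
      change Algebra.adjoin K (Set.range g) = ⊤ at this
      rw [this]
      exact Algebra.mem_top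
    rw [← Subalgebra.mem_toSubmodule, Algebra.adjoin_eq_span] at h4
    have h5 : Submodule.span K (Submonoid.closure (Set.range g) : Set _) ≤
        LinearMap.range (Psi (K := K) g) := by
      rw [Submodule.span_le]
      intro z hz
      obtain ⟨l, rfl⟩ := mem_closure_range g hz
      exact hrange l
    exact h5 h4
  have hinj : Function.Injective (Psi (K := K) g) := by
    rw [injective_iff_map_eq_zero]
    intro σ h0
    by_contra hσ
    refine hne hσ (one_ne_zero (α := MvPolynomial I K)) ?_
    rw [h0, map_zero]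
    rfl
  let e : MvPolynomial I K ≃ₗ[K] UniversalEnvelopingAlgebra K L :=
    LinearEquiv.ofBijective (Psi (K := K) g) ⟨hinj, hsurj⟩
  let eq : (I →₀ ℕ) ≃ {l : List I // l.Pairwise (· ≤ ·)} :=
    { toFun := fun s => ⟨lst s, Multiset.pairwise_sort _ _⟩
      invFun := fun l => Multiset.toFinsupp (l.1 : Multiset I)
      left_inv := by
        intro s
        change Multiset.toFinsupp ((lst s : List I) : Multiset I) = s
        unfold lst
        rw [Multiset.sort_eq, Finsupp.toMultiset_toFinsupp]
      right_inv := fun l => Subtype.ext (lst_of_sorted l.1 l.2) }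
  refine ⟨((MvPolynomial.basisMonomials I K).map e).reindex eq, ?_⟩
  intro l
  rw [Module.Basis.reindex_apply, Module.Basis.map_apply, MvPolynomial.coe_basisMonomials]
  change Psi (K := K) g (MvPolynomial.monomial (Multiset.toFinsupp (l.1 : Multiset I)) 1) = _
  rw [Psi_monomial, one_smul, lst_of_sorted l.1 l.2]

end Pool.Agent.Y351.LQ
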